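import Pool.Agent.Helper292.ForceCH

/-!
# MP_c8ce56: emu-boundedness of the `ω₁`-ballean of `Sym(ω)`

The `ω₁`-ballean of the group of all permutations of `ω` is emu-bounded if and only if the
continuum hypothesis fails.
-/

universe u

open Cardinal Set

namespace Pool.Agent.Results.MP_c8ce56_lc.EmuIffNotCH

/-- The set `F x = {g x : g ∈ F}`. -/
def translate {G : Type u} [Group G] (F : Set G) (x : G) : Set G := (fun g => g * x) '' F

/-- `f : G → ℝ` is eventually macro-uniform for the `κ`-ballean of `G`. -/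
def EventuallyMacroUniform (κ : Cardinal.{u}) {G : Type u} [Group G] (f : G → ℝ) : Prop :=
  ∀ F : Set G, #F < κ → ∃ B : Set G, #B < κ ∧
    (⨆ x ∈ Bᶜ, Metric.ediam (f '' translate F x)) < ⊤

/-- The `κ`-ballean of `G` is emu-bounded. -/
def EmuBounded (κ : Cardinal.{u}) (G : Type u) [Group G] : Prop :=
  ∀ f : G → ℝ, EventuallyMacroUniform κ f →
    ∃ B : Set G, #B < κ ∧ ∃ C : ℝ, ∀ x, x ∉ B → |f x| ≤ C

/-! ### Groups of size `ℵ₁` -/

theorem closure_countable {G : Type u} [Group G] {S : Set G} (hS : S.Countable) :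
    (Subgroup.closure S : Set G).Countable := by
  rw [FreeGroup.closure_eq_range, MonoidHom.coe_range]
  have : Countable S := hS.to_subtype
  have : Countable (FreeGroup S) :=
    inferInstanceAs (Countable (Quot (FreeGroup.Red.Step (α := S))))
  exact countable_range _

theorem exists_fibres {R : Type u} (hR : ℵ₀ < #R) :
    ∃ φ : R → ℕ, ∀ n, ℵ₀ < #{r | φ r = n} := by
  have hcard : #R = #(R × ULift.{u} ℕ) := by
    rw [mk_prod, lift_id, lift_id, mk_uLift, mk_nat, lift_aleph0,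
      mul_eq_left hR.le hR.le aleph0_ne_zero]
  obtain ⟨e⟩ := Cardinal.eq.mp hcard
  refine ⟨fun r => (e r).2.down, fun n => hR.trans_le ?_⟩
  refine mk_le_of_injective (f := fun r => ⟨e.symm (r, ⟨n⟩), by simp⟩) ?_
  intro a b hab
  have h1 := e.symm.injective (Subtype.ext_iff.mp hab)
  exact (Prod.mk.inj h1).1

theorem not_emuBounded_of_card {G : Type u} [Group G] (hG : #G = ℵ_ 1) :
    ¬ EmuBounded (ℵ_ 1) G := by
  classical
  intro hemu
  have hcard : #(ℵ_ 1 : Cardinal.{u}).ord.ToType = #G := by rw [mk_ord_toType, hG]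
  obtain ⟨e⟩ := Cardinal.eq.mp hcard
  let W := (ℵ_ 1 : Cardinal.{u}).ord.ToType
  have hreg : (ℵ_ 1 : Cardinal.{u}).IsRegular := isRegular_aleph_one
  -- countable sets are strictly bounded
  have hbdd : ∀ S : Set W, S.Countable → ∃ b, ∀ x ∈ S, x < b := by
    intro S hS
    by_contra hcon
    push Not at hcon
    have h : IsCofinal S := fun b => hcon b
    have h1 := Order.cof_le h
    rw [Ordinal.cof_toType, hreg.cof_ord] at h1
    have h2 : #S ≤ ℵ₀ := Cardinal.le_aleph0_iff_set_countable.mpr hS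
    exact absurd (h1.trans h2) (not_le.mpr aleph0_lt_aleph_one)
  have hIio : ∀ b : W, (Iio b).Countable := by
    intro b
    rw [← Cardinal.le_aleph0_iff_set_countable, ← lt_aleph_one_iff]
    exact Cardinal.mk_Iio_toType_ord_lt b
  -- the chain of countable subgroups
  let Gs : W → Subgroup G := fun a => Subgroup.closure (e '' Iio a)
  have hGc : ∀ a, (Gs a : Set G).Countable := fun a =>
    closure_countable ((hIio a).image e)
  have hGm : ∀ a b, a ≤ b → Gs a ≤ Gs b := fun a b hab =>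
    Subgroup.closure_mono (image_mono (Iio_subset_Iio hab))
  have hGx : ∀ x, ∃ a, x ∈ Gs a := by
    intro x
    obtain ⟨b, hb⟩ := hbdd {e.symm x} (countable_singleton _)
    exact ⟨b, Subgroup.subset_closure ⟨e.symm x, hb _ rfl, by simp⟩⟩
  let r : G → W := fun x => WellFounded.min (wellFounded_lt (α := W)) {a | x ∈ Gs a} (hGx x)
  have hr : ∀ x a, x ∈ Gs a ↔ r x ≤ a := by
    intro x a
    constructor
    · intro h
      exact not_lt.mp (WellFounded.not_lt_min _ _ (x := a) h)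
    · intro h
      exact hGm _ _ h (WellFounded.min_mem _ _ (hGx x))
  -- the range of r is uncountable
  have hrange : ℵ₀ < #(range r) := by
    by_contra hcon
    have hc : (range r).Countable := Cardinal.le_aleph0_iff_set_countable.mp (not_lt.mp hcon)
    have hun : (Set.univ : Set G) = ⋃ a ∈ range r, (Gs a : Set G) := by
      refine (eq_univ_of_forall fun x => ?_).symm
      exact mem_iUnion₂.mpr ⟨r x, ⟨x, rfl⟩, (hr x (r x)).mpr le_rfl⟩
    have : (Set.univ : Set G).Countable := by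
      rw [hun]
      exact hc.biUnion fun a _ => hGc a
    have h3 := Cardinal.le_aleph0_iff_set_countable.mpr this
    rw [mk_univ, hG] at h3
    exact absurd h3 (not_le.mpr aleph0_lt_aleph_one)
  obtain ⟨φ, hφ⟩ := exists_fibres hrange
  let f : G → ℝ := fun x => (φ ⟨r x, ⟨x, rfl⟩⟩ : ℕ)
  have hf : EventuallyMacroUniform (ℵ_ 1) f := by
    intro F hF
    have hFc : F.Countable := by
      rw [lt_aleph_one_iff] at hF
      exact Cardinal.le_aleph0_iff_set_countable.mp hF
    obtain ⟨b, hb⟩ := hbdd (e.symm '' F) (hFc.image _)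
    have hFb : ∀ g ∈ F, g ∈ Gs b := fun g hg =>
      Subgroup.subset_closure ⟨e.symm g, hb _ ⟨g, hg, rfl⟩, by simp⟩
    refine ⟨Gs b, ?_, ?_⟩
    · rw [lt_aleph_one_iff]
      exact Cardinal.le_aleph0_iff_set_countable.mpr (hGc b)
    · refine lt_of_le_of_lt ?_ ENNReal.zero_lt_top
      refine iSup₂_le fun x hx => ?_
      have hsub : (f '' translate F x).Subsingleton := by
        have hconst : ∀ g ∈ F, f (g * x) = f x := by
          intro g hg
          have hgb := hFb g hg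
          have hbx : b < r x := by
            by_contra hcon
            exact hx ((hr x b).mpr (not_lt.mp hcon))
          have h1 : r (g * x) ≤ r x := by
            rw [← hr]
            exact (Gs (r x)).mul_mem (hGm _ _ hbx.le hgb) ((hr x _).mpr le_rfl)
          have hbgx : b < r (g * x) := by
            by_contra hcon
            have h2 := (hr (g * x) b).mpr (not_lt.mp hcon)
            apply hx
            have h3 := (Gs b).mul_mem ((Gs b).inv_mem hgb) h2
            rwa [inv_mul_cancel_left] at h3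
          have h2 : r x ≤ r (g * x) := by
            rw [← hr]
            have h3 := (Gs (r (g * x))).mul_mem
              ((Gs (r (g * x))).inv_mem (hGm _ _ hbgx.le hgb)) ((hr (g * x) _).mpr le_rfl)
            rwa [inv_mul_cancel_left] at h3
          have h3 := le_antisymm h1 h2
          simp only [f]
          congr 3
        rintro _ ⟨_, ⟨g, hg, rfl⟩, rfl⟩ _ ⟨_, ⟨g', hg', rfl⟩, rfl⟩
        rw [hconst g hg, hconst g' hg']
      rw [Metric.ediam_subsingleton hsub]
  obtain ⟨B, hB, C, hC⟩ := hemu f hf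
  obtain ⟨n, hn⟩ := exists_nat_gt C
  -- the set of x with f x = n is uncountable
  have hsub : (fun a : range r => a.1) '' {a | φ a = n} ⊆ r '' B := by
    rintro _ ⟨⟨_, ⟨x, rfl⟩⟩, ha, rfl⟩
    refine ⟨x, ?_, rfl⟩
    by_contra hxB
    have h1 := hC x hxB
    have h2 : f x = n := by
      simp only [f]
      exact_mod_cast ha
    rw [h2, abs_of_nonneg (Nat.cast_nonneg n)] at h1
    exact absurd h1 (not_le.mpr hn)
  have h1 : #{a : range r | φ a = n} ≤ #B := by
    calc #{a : range r | φ a = n} = #((fun a : range r => a.1) '' {a | φ a = n}) :=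
          (mk_image_eq Subtype.val_injective).symm
      _ ≤ #(r '' B) := mk_le_mk_of_subset hsub
      _ ≤ #B := mk_image_le
  rw [lt_aleph_one_iff] at hB
  exact absurd (h1.trans hB) (not_le.mpr (hφ n))

/-! ### Permutations of `ℕ` -/

/-- The pointwise stabilizer of `S` in the group of all permutations of `ℕ`. -/
def Fx (S : Set ℕ) : Subgroup (Equiv.Perm ℕ) where
  carrier := {p | ∀ x ∈ S, p x = x}
  mul_mem' := by
    intro p q hp hq x hx
    rw [Equiv.Perm.mul_apply, hq x hx, hp x hx]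
  one_mem' := fun x _ => rfl
  inv_mem' := by
    intro p hp x hx
    rw [Equiv.Perm.inv_eq_iff_eq, hp x hx]

theorem mem_Fx {S : Set ℕ} {p : Equiv.Perm ℕ} : p ∈ Fx S ↔ ∀ x ∈ S, p x = x := Iff.rfl

theorem commute_Fx {S : Set ℕ} {g h : Equiv.Perm ℕ} (hg : g ∈ Fx S) (hh : h ∈ Fx Sᶜ) :
    g * h = h * g := by
  refine Equiv.Perm.Disjoint.commute (f := g) (g := h) (fun x => ?_)
  by_cases hx : x ∈ S
  · exact Or.inl (hg x hx)
  · exact Or.inr (hh x hx)

theorem mk_Fx {S : Set ℕ} (hS : Sᶜ.Infinite) : Cardinal.continuum ≤ #(Fx S : Set (Equiv.Perm ℕ)) := by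
  classical
  have hinf : Infinite {x // x ∈ Sᶜ} := hS.to_subtype
  have h1 : #(Equiv.Perm {x // x ∈ Sᶜ}) = Cardinal.continuum := by
    rw [mk_perm_eq_two_power, mk_eq_aleph0, two_power_aleph0]
  rw [← h1]
  refine mk_le_of_injective (f := fun p => ⟨Equiv.Perm.ofSubtype p, ?_⟩) ?_
  · intro x hx
    exact Equiv.Perm.ofSubtype_apply_of_not_mem p (fun h => h hx)
  · intro p q hpq
    exact Equiv.Perm.ofSubtype_injective (Subtype.ext_iff.mp hpq)

/-- Extending a partial injection inside `D` to a permutation supported in `D`. -/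
theorem ext_perm (D A : Set ℕ) (f : ℕ → ℕ) (hf : InjOn f A) (hAD : A ⊆ D) (hfD : f '' A ⊆ D)
    (h1 : (D \ A).Infinite) (h2 : (D \ f '' A).Infinite) :
    ∃ p : Equiv.Perm ℕ, (∀ a ∈ A, p a = f a) ∧ p ∈ Fx Dᶜ := by
  classical
  have i1 : Infinite ↥(D \ A) := h1.to_subtype
  have i2 : Infinite ↥(D \ f '' A) := h2.to_subtype
  obtain ⟨e⟩ : Nonempty (↥(D \ A) ≃ ↥(D \ f '' A)) := nonempty_equiv_of_countable
  let p : ℕ → ℕ := fun x => if x ∈ A then f x else if h : x ∈ D \ A then (e ⟨x, h⟩).1 else x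
  have pA : ∀ x ∈ A, p x = f x := fun x hx => if_pos hx
  have pD : ∀ x (h : x ∈ D \ A), p x = (e ⟨x, h⟩).1 := by
    intro x h
    simp only [p, if_neg h.2, dif_pos h]
  have pN : ∀ x, x ∉ D → p x = x := by
    intro x h
    have hA : x ∉ A := fun h' => h (hAD h')
    have hD : ¬ x ∈ D \ A := fun h' => h h'.1
    simp only [p, if_neg hA, dif_neg hD]
  have hbij : Function.Bijective p := by
    constructor
    · intro x y hxy
      by_cases hx : x ∈ A
      · rw [pA x hx] at hxy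
        by_cases hy : y ∈ A
        · rw [pA y hy] at hxy
          exact hf hx hy hxy
        · by_cases hyD : y ∈ D
          · rw [pD y ⟨hyD, hy⟩] at hxy
            exact absurd ⟨x, hx, hxy⟩ (e ⟨y, ⟨hyD, hy⟩⟩).2.2
          · rw [pN y hyD] at hxy
            exact absurd (hxy ▸ hfD ⟨x, hx, rfl⟩) hyD
      · by_cases hxD : x ∈ D
        · rw [pD x ⟨hxD, hx⟩] at hxy
          by_cases hy : y ∈ A
          · rw [pA y hy] at hxy
            exact absurd ⟨y, hy, hxy.symm⟩ (e ⟨x, ⟨hxD, hx⟩⟩).2.2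
          · by_cases hyD : y ∈ D
            · rw [pD y ⟨hyD, hy⟩] at hxy
              exact Subtype.ext_iff.mp (e.injective (Subtype.ext hxy))
            · rw [pN y hyD] at hxy
              exact absurd (hxy ▸ (e ⟨x, ⟨hxD, hx⟩⟩).2.1) hyD
        · rw [pN x hxD] at hxy
          by_cases hy : y ∈ A
          · rw [pA y hy] at hxy
            exact absurd (hxy.symm ▸ hfD ⟨y, hy, rfl⟩) hxD
          · by_cases hyD : y ∈ D
            · rw [pD y ⟨hyD, hy⟩] at hxy
              exact absurd (hxy.symm ▸ (e ⟨y, ⟨hyD, hy⟩⟩).2.1) hxD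
            · rwa [pN y hyD] at hxy
    · intro y
      by_cases hyD : y ∈ D
      · by_cases hyA : y ∈ f '' A
        · obtain ⟨x, hx, rfl⟩ := hyA
          exact ⟨x, pA x hx⟩
        · refine ⟨(e.symm ⟨y, hyD, hyA⟩).1, ?_⟩
          rw [pD _ (e.symm ⟨y, hyD, hyA⟩).2]
          simp
      · exact ⟨y, pN y hyD⟩
  exact ⟨Equiv.ofBijective p hbij, pA, fun x hx => pN x hx⟩

theorem decomp_aux {A B : Set ℕ} (hA : A.Infinite) (hAB : Disjoint A B)
    (hM : (Aᶜ ∩ Bᶜ).Infinite) (g : Equiv.Perm ℕ) (hg : {x | x ∉ B ∧ g x ∉ B}.Infinite) :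
    ∃ s ∈ Fx B, ∃ t ∈ Fx A, ∃ u ∈ Fx B, g = s * t * u := by
  classical
  have iA : Infinite A := hA.to_subtype
  obtain ⟨φ⟩ : Nonempty (A ≃ ℕ) := nonempty_equiv_of_countable
  let ι := hg.natEmbedding
  let t0 : ℕ → ℕ := fun x => if h : x ∈ A then (ι (2 * φ ⟨x, h⟩)).1 else 0
  have ht0 : ∀ x (h : x ∈ A), t0 x = (ι (2 * φ ⟨x, h⟩)).1 := fun x h => dif_pos h
  have hinj : InjOn t0 A := by
    intro x hx y hy hxy
    rw [ht0 x hx, ht0 y hy] at hxy
    have h1 := ι.injective (Subtype.ext hxy)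
    have h2 := φ.injective (Nat.eq_of_mul_eq_mul_left (by norm_num : 0 < 2) h1)
    exact Subtype.ext_iff.mp h2
  have hAD : A ⊆ Bᶜ := fun x hx hxB => (disjoint_left.mp hAB) hx hxB
  have hodd : (range fun n => (ι (2 * n + 1)).1).Infinite := by
    refine infinite_range_of_injective ?_
    intro a b hab
    have h1 := ι.injective (Subtype.ext hab)
    omega
  have hnot : ∀ n, (ι (2 * n + 1)).1 ∉ t0 '' A := by
    rintro n ⟨x, hx, hxn⟩
    rw [ht0 x hx] at hxn
    have h1 := ι.injective (Subtype.ext hxn)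
    omega
  have hDA : (Bᶜ \ A).Infinite := hM.mono fun x hx => ⟨hx.2, hx.1⟩
  obtain ⟨p, hpA, hpD⟩ := ext_perm Bᶜ A t0 hinj hAD
    (by rintro _ ⟨x, hx, rfl⟩; rw [ht0 x hx]; exact (ι _).2.1) hDA
    (hodd.mono (by rintro _ ⟨n, rfl⟩; exact ⟨(ι _).2.1, hnot n⟩))
  obtain ⟨q, hqA, hqD⟩ := ext_perm Bᶜ A (fun x => g (t0 x))
    (fun x hx y hy hxy => hinj hx hy (g.injective hxy)) hAD
    (by rintro _ ⟨x, hx, rfl⟩; simp only [ht0 x hx]; exact (ι _).2.2) hDA
    (by
      refine (hodd.image g.injective.injOn).mono ?_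
      rintro _ ⟨_, ⟨n, rfl⟩, rfl⟩
      refine ⟨(ι _).2.2, ?_⟩
      rintro ⟨x, hx, hxn⟩
      exact hnot n ⟨x, hx, g.injective hxn⟩)
  rw [compl_compl] at hpD hqD
  refine ⟨q, hqD, q⁻¹ * g * p, ?_, p⁻¹, (Fx B).inv_mem hpD, by group⟩
  intro x hx
  rw [Equiv.Perm.mul_apply, Equiv.Perm.mul_apply, hpA x hx, Equiv.Perm.inv_eq_iff_eq, hqA x hx]

theorem decomp {A B : Set ℕ} (hA : A.Infinite) (hB : B.Infinite) (hAB : Disjoint A B)
    (hM : (Aᶜ ∩ Bᶜ).Infinite) (g : Equiv.Perm ℕ) :
    (∃ s ∈ Fx B, ∃ t ∈ Fx A, ∃ u ∈ Fx B, g = s * t * u) ∨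
    (∃ s ∈ Fx A, ∃ t ∈ Fx B, ∃ u ∈ Fx A, g = s * t * u) := by
  by_cases h1 : {x | x ∉ B ∧ g x ∉ B}.Infinite
  · exact Or.inl (decomp_aux hA hAB hM g h1)
  by_cases h2 : {x | x ∉ A ∧ g x ∉ A}.Infinite
  · exact Or.inr (decomp_aux hB hAB.symm (by rwa [inter_comm]) g h2)
  exfalso
  rw [not_infinite] at h1 h2
  refine hM ((h1.union h2).subset ?_)
  intro x hx
  by_cases hgB : g x ∈ B
  · exact Or.inr ⟨hx.1, fun hgA => (disjoint_left.mp hAB) hgA hgB⟩
  · exact Or.inl ⟨hx.2, hgB⟩

/-- The uniform constant. -/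
theorem exists_const {G : Type u} [Group G] {f : G → ℝ} (hf : EventuallyMacroUniform (ℵ_ 1) f) :
    ∃ C : ℝ, 0 ≤ C ∧ ∀ g : G, {x | C < |f (g * x) - f x|}.Countable := by
  by_contra hcon
  push Not at hcon
  have hex : ∀ n : ℕ, ∃ g : G, ¬ {x | (n : ℝ) < |f (g * x) - f x|}.Countable :=
    fun n => hcon n (Nat.cast_nonneg n)
  choose g hg using hex
  obtain ⟨B, hB, hsup⟩ := hf (insert 1 (range g)) (by
    rw [lt_aleph_one_iff, Cardinal.le_aleph0_iff_set_countable]
    exact (countable_range g).insert _)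
  set S := ⨆ x ∈ Bᶜ, Metric.ediam (f '' translate (insert 1 (range g)) x) with hS
  obtain ⟨n, hn⟩ := exists_nat_gt S.toReal
  apply hg n
  rw [lt_aleph_one_iff, Cardinal.le_aleph0_iff_set_countable] at hB
  refine hB.mono ?_
  intro x hx
  by_contra hxB
  have h1 : edist (f (g n * x)) (f x) ≤ S := by
    refine le_trans (Metric.edist_le_ediam_of_mem (s := f '' translate (insert 1 (range g)) x)
      ⟨g n * x, ⟨g n, Or.inr ⟨n, rfl⟩, rfl⟩, rfl⟩
      ⟨x, ⟨1, Or.inl rfl, one_mul x⟩, rfl⟩) ?_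
    exact le_iSup₂ (f := fun x (_ : x ∈ Bᶜ) =>
      Metric.ediam (f '' translate (insert 1 (range g)) x)) x hxB
  have h2 : |f (g n * x) - f x| ≤ S.toReal := by
    rw [← Real.dist_eq, dist_edist]
    exact ENNReal.toReal_mono hsup.ne h1
  exact absurd (lt_of_lt_of_le (lt_of_lt_of_le hn (le_of_lt hx)) h2) (lt_irrefl _)

section

variable {f : Equiv.Perm ℕ → ℝ} {C : ℝ}

theorem claimA (hC : ∀ g : Equiv.Perm ℕ, {x | C < |f (g * x) - f x|}.Countable)
    {B : Set ℕ} (hB : B.Infinite) :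
    ∃ N : Set (Equiv.Perm ℕ), #N ≤ ℵ_ 1 ∧ ∀ g ∈ Fx B, ∀ x, x ∉ N → g * x ∉ N →
      |f (g * x) - f x| ≤ 3 * C := by
  obtain ⟨H, hHs, hH⟩ := le_mk_iff_exists_subset.mp
    (aleph_one_le_continuum.trans (mk_Fx (S := Bᶜ) (by rwa [compl_compl])))
  refine ⟨⋃ h ∈ H, {x | C < |f (h * x) - f x|}, ?_, ?_⟩
  · refine (mk_biUnion_le _ _).trans ?_
    rw [hH]
    calc ℵ_ 1 * ⨆ x : H, #{y | C < |f (x * y) - f y|} ≤ ℵ_ 1 * ℵ_ 1 := by
          refine mul_le_mul_right ?_ _
          refine ciSup_le' fun h => ?_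
          exact (Cardinal.le_aleph0_iff_set_countable.mpr (hC h)).trans aleph0_lt_aleph_one.le
      _ = ℵ_ 1 := mul_eq_self aleph0_lt_aleph_one.le
  · intro g hg x hx hgx
    have hex : ∃ h ∈ H, h * x ∉ {y | C < |f (g * y) - f y|} := by
      by_contra hcon
      push Not at hcon
      have h1 : H.Countable := by
        refine Set.Countable.mono (s₂ := (fun h => h * x) ⁻¹' {y | C < |f (g * y) - f y|})
          (fun h hh => hcon h hh) ?_
        exact (hC g).preimage_of_injOn (fun a _ b _ hab => mul_right_cancel hab)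
      rw [← Cardinal.le_aleph0_iff_set_countable, hH] at h1
      exact absurd h1 (not_le.mpr aleph0_lt_aleph_one)
    obtain ⟨h, hh, hhx⟩ := hex
    have e1 : |f (g * (h * x)) - f (h * x)| ≤ C := not_lt.mp hhx
    have e2 : |f (h * x) - f x| ≤ C := by
      by_contra hcon
      exact hx (mem_biUnion hh (not_le.mp hcon))
    have e3 : |f (h * (g * x)) - f (g * x)| ≤ C := by
      by_contra hcon
      exact hgx (mem_biUnion hh (not_le.mp hcon))
    have hcomm : g * (h * x) = h * (g * x) := by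
      rw [← mul_assoc, ← mul_assoc, commute_Fx hg (hHs hh)]
    rw [hcomm] at e1
    rw [abs_le] at *
    constructor <;> linarith [e1.1, e1.2, e2.1, e2.2, e3.1, e3.2]

/-- Main part of the argument when the continuum hypothesis fails. -/
theorem emuBounded_of_lt (hCH : ℵ_ 1 < Cardinal.continuum.{0}) :
    EmuBounded (ℵ_ 1) (Equiv.Perm ℕ) := by
  classical
  intro f hf
  obtain ⟨C, hC0, hC⟩ := exists_const hf
  -- the two sets
  let A : Set ℕ := {x | x % 3 = 0}
  let B : Set ℕ := {x | x % 3 = 1}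
  have hA : A.Infinite := by
    refine (infinite_range_of_injective (f := fun n : ℕ => 3 * n) ?_).mono ?_
    · intro a b hab
      simp only at hab
      omega
    · rintro _ ⟨n, rfl⟩
      simp only [A, mem_ofPred_eq]
      omega
  have hB : B.Infinite := by
    refine (infinite_range_of_injective (f := fun n : ℕ => 3 * n + 1) ?_).mono ?_
    · intro a b hab
      simp only at hab
      omega
    · rintro _ ⟨n, rfl⟩
      simp only [B, mem_ofPred_eq]
      omega
  have hM : (Aᶜ ∩ Bᶜ).Infinite := by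
    refine (infinite_range_of_injective (f := fun n : ℕ => 3 * n + 2) ?_).mono ?_
    · intro a b hab
      simp only at hab
      omega
    · rintro _ ⟨n, rfl⟩
      simp only [A, B, mem_inter_iff, mem_compl_iff, mem_ofPred_eq]
      omega
  have hAB : Disjoint A B := by
    rw [disjoint_left]
    intro x hx hx'
    simp only [A, B, mem_ofPred_eq] at hx hx'
    omega
  obtain ⟨N1, hN1, hN1'⟩ := claimA hC hA
  obtain ⟨N2, hN2, hN2'⟩ := claimA hC hB
  have hN : #(N1 ∪ N2 : Set (Equiv.Perm ℕ)) ≤ ℵ_ 1 := by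
    refine (mk_union_le _ _).trans ((add_le_add hN1 hN2).trans ?_)
    rw [add_eq_self aleph0_lt_aleph_one.le]
  set N := N1 ∪ N2 with hNdef
  have hfixA : ∀ g ∈ Fx A, ∀ x, x ∉ N → g * x ∉ N → |f (g * x) - f x| ≤ 3 * C :=
    fun g hg x hx hgx => hN1' g hg x (fun h => hx (Or.inl h)) (fun h => hgx (Or.inl h))
  have hfixB : ∀ g ∈ Fx B, ∀ x, x ∉ N → g * x ∉ N → |f (g * x) - f x| ≤ 3 * C :=
    fun g hg x hx hgx => hN2' g hg x (fun h => hx (Or.inr h)) (fun h => hgx (Or.inr h))
  -- moving away from N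
  have hmid : ∀ z : Equiv.Perm ℕ, ∃ v ∈ Fx (A ∪ B), v * z ∉ N := by
    intro z
    by_contra hcon
    push Not at hcon
    have h1 : Cardinal.continuum.{0} ≤ #N := by
      refine (mk_Fx (S := A ∪ B) (by rwa [compl_union])).trans ?_
      refine mk_le_of_injective (f := fun v => ⟨v.1 * z, hcon v.1 v.2⟩) ?_
      intro v w hvw
      exact Subtype.ext (mul_right_cancel (Subtype.ext_iff.mp hvw))
    exact absurd (h1.trans hN) (not_le.mpr hCH)
  have hAB1 : ∀ v ∈ Fx (A ∪ B), v ∈ Fx A := fun v hv x hx => hv x (Or.inl hx)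
  have hAB2 : ∀ v ∈ Fx (A ∪ B), v ∈ Fx B := fun v hv x hx => hv x (Or.inr hx)
  have hword : ∀ (P Q : Subgroup (Equiv.Perm ℕ)), (∀ v ∈ Fx (A ∪ B), v ∈ P) →
      (∀ v ∈ Fx (A ∪ B), v ∈ Q) →
      (∀ g ∈ P, ∀ x, x ∉ N → g * x ∉ N → |f (g * x) - f x| ≤ 3 * C) →
      (∀ g ∈ Q, ∀ x, x ∉ N → g * x ∉ N → |f (g * x) - f x| ≤ 3 * C) →
      ∀ x, x ∉ N → ∀ s ∈ P, ∀ t ∈ Q, ∀ u ∈ P, s * t * u * x ∉ N →
        |f (s * t * u * x) - f x| ≤ 9 * C := by
    intro P Q hP hQ hfP hfQ x hx s hs t ht u hu hy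
    obtain ⟨v, hv, hvN⟩ := hmid (u * x)
    obtain ⟨w, hw, hwN⟩ := hmid (t * (u * x))
    have e1 : |f (v * (u * x)) - f x| ≤ 3 * C := by
      have h := hfP (v * u) (P.mul_mem (hP v hv) hu) x hx (by rwa [mul_assoc])
      rwa [mul_assoc] at h
    have e2 : |f (w * (t * (u * x))) - f (v * (u * x))| ≤ 3 * C := by
      have he : w * t * v⁻¹ * (v * (u * x)) = w * (t * (u * x)) := by group
      have h := hfQ (w * t * v⁻¹) (Q.mul_mem (Q.mul_mem (hQ w hw) ht) (Q.inv_mem (hQ v hv)))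
        (v * (u * x)) hvN (by rwa [he])
      rwa [he] at h
    have e3 : |f (s * t * u * x) - f (w * (t * (u * x)))| ≤ 3 * C := by
      have he : s * w⁻¹ * (w * (t * (u * x))) = s * t * u * x := by group
      have h := hfP (s * w⁻¹) (P.mul_mem hs (P.inv_mem (hP w hw)))
        (w * (t * (u * x))) hwN (by rwa [he])
      rwa [he] at h
    rw [abs_le] at *
    constructor <;> linarith [e1.1, e1.2, e2.1, e2.2, e3.1, e3.2]
  have hpair : ∀ x y, x ∉ N → y ∉ N → |f y - f x| ≤ 9 * C := by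
    intro x y hx hy
    have hyx : y * x⁻¹ * x = y := inv_mul_cancel_right y x
    rcases decomp hA hB hAB hM (y * x⁻¹) with ⟨s, hs, t, ht, u, hu, hg⟩ | ⟨s, hs, t, ht, u, hu, hg⟩
    · have h := hword (Fx B) (Fx A) hAB2 hAB1 hfixB hfixA x hx s hs t ht u hu
        (by rw [← hg, hyx]; exact hy)
      rwa [← hg, hyx] at h
    · have h := hword (Fx A) (Fx B) hAB1 hAB2 hfixA hfixB x hx s hs t ht u hu
        (by rw [← hg, hyx]; exact hy)
      rwa [← hg, hyx] at h
  obtain ⟨v0, -, hx0⟩ := hmid 1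
  set x0 := v0 * 1 with hx0def
  set M := |f x0| + 9 * C with hM0
  have hbound : ∀ x, x ∉ N → |f x| ≤ M := by
    intro x hx
    have h1 := hpair x0 x hx0 hx
    have h2 : |f x| ≤ |f x0| + |f x - f x0| := by
      have := abs_add_le (f x0) (f x - f x0)
      simpa using this
    linarith
  refine ⟨{x | M + C < |f x|}, ?_, M + C, fun x hx => not_lt.mp hx⟩
  rw [lt_aleph_one_iff]
  by_contra hcon
  rw [not_le, ← aleph_one_le_iff] at hcon
  obtain ⟨E, hEs, hE⟩ := le_mk_iff_exists_subset.mp hcon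
  -- a translation moving E off N
  have hex : ∃ g : Equiv.Perm ℕ, ∀ x ∈ E, g * x ∉ N := by
    by_contra hcon2
    push Not at hcon2
    choose k hkE hkN using hcon2
    have h1 : #(Equiv.Perm ℕ) ≤ #(E × N) := by
      refine mk_le_of_injective (f := fun g => (⟨k g, hkE g⟩, ⟨g * k g, hkN g⟩)) ?_
      intro g g' hgg
      have h2 := Subtype.ext_iff.mp (Prod.mk.inj hgg).1
      have h3 := Subtype.ext_iff.mp (Prod.mk.inj hgg).2
      simp only at h2 h3
      rw [h2] at h3
      exact mul_right_cancel h3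
    rw [mk_perm_eq_two_power, mk_nat, two_power_aleph0, mk_prod, lift_id, lift_id, hE] at h1
    have h2 : ℵ_ 1 * #N ≤ ℵ_ 1 :=
      (mul_le_mul_right hN _).trans (mul_eq_self aleph0_lt_aleph_one.le).le
    exact absurd (h1.trans h2) (not_le.mpr hCH)
  obtain ⟨g, hg⟩ := hex
  have hEc : E.Countable := by
    refine (hC g).mono ?_
    intro x hx
    have h1 := hbound _ (hg x hx)
    have h2 : M + C < |f x| := hEs hx
    have h3 : |f x| - |f (g * x)| ≤ |f (g * x) - f x| := by
      rw [abs_sub_comm]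
      exact abs_sub_abs_le_abs_sub _ _
    change C < |f (g * x) - f x|
    linarith
  rw [← Cardinal.le_aleph0_iff_set_countable, hE] at hEc
  exact absurd hEc (not_le.mpr aleph0_lt_aleph_one)

end

/-- **Main theorem.** (1) Some notion of forcing forces that `ω₁` is preserved and that the
continuum hypothesis holds (forcing language of `Pool.Agent.Helper292.ForceCH`: a sentence is the
set of the conditions which force it). (2) The `ω₁`-ballean of the group of all permutations of `ω`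
is emu-bounded if and only if the continuum hypothesis fails. -/
theorem result :
    (∃ (P : Type) (_ : Preorder P), Nonempty P ∧ ∀ p : P,
      p ∈ Pool.Agent.Helper292.ForceCH.OmegaOnePreserved P ∧
      p ∈ Pool.Agent.Helper292.ForceCH.CHHolds P) ∧
    (EmuBounded (ℵ_ 1) (Equiv.Perm ℕ) ↔ Cardinal.continuum.{0} ≠ ℵ_ 1) := by
  refine ⟨?_, ?_, ?_⟩
  · obtain ⟨P, i, h1, h2⟩ := Pool.Agent.Helper292.ForceCH.exists_forcing
    exact ⟨P, i, h1, fun p => ⟨(h2 p).1, (h2 p).2.2⟩⟩
  · intro h hCH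
    refine not_emuBounded_of_card ?_ h
    rw [mk_perm_eq_two_power, mk_nat, two_power_aleph0, hCH]
  · intro h
    exact emuBounded_of_lt (lt_of_le_of_ne aleph_one_le_continuum (Ne.symm h))

end Pool.Agent.Results.MP_c8ce56_lc.EmuIffNotCH
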